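import Mathlib

/-!
# A mixed cubic sum of Shapiro Catalan triangle numbers: the two closed forms

`Phi K n m = ∑_{k<K} k ^ 3 C(2n, n+k) ^ 2 C(2m, m+k)` satisfies a first order recurrence in `m`
(Gosper summation in `k`), and so do the two closed forms, one with `∑_{j<m}` and one with
`∑_{j<n}`; both are valid for all `n ≥ 1`, `m ≥ 0`.
-/

set_option autoImplicit false

namespace Pool.Agent.H32x.MixedCubic

open Finset

/-- `C(2n, n+k)`, which vanishes for `k > n`. -/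
def c (n k : ℕ) : ℚ := ((2 * n).choose (n + k) : ℚ)

lemma c_succ (n k : ℕ) : ((n : ℚ) + k + 1) * c n (k + 1) = ((n : ℚ) - k) * c n k := by
  unfold c
  rcases Nat.lt_or_ge n (k + 1) with h | h
  · rcases Nat.lt_or_ge n k with h1 | h1
    · rw [Nat.choose_eq_zero_of_lt (by omega : 2 * n < n + (k + 1)),
        Nat.choose_eq_zero_of_lt (by omega : 2 * n < n + k)]
      simp
    · have : n = k := by omega
      subst this
      rw [Nat.choose_eq_zero_of_lt (by omega : 2 * n < n + (n + 1))]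
      simp
  · have h1 := Nat.choose_succ_right_eq (2 * n) (n + k)
    have h2 : 2 * n - (n + k) = n - k := by omega
    rw [h2] at h1
    have h3 : (((2 * n).choose (n + k + 1) * (n + k + 1) : ℕ) : ℚ) =
        (((2 * n).choose (n + k) * (n - k) : ℕ) : ℚ) := by exact_mod_cast h1
    rw [Nat.cast_mul, Nat.cast_mul, Nat.cast_sub (by omega : k ≤ n)] at h3
    push_cast at h3
    rw [show n + (k + 1) = n + k + 1 by ring]
    linear_combination h3

lemma c_up (m k : ℕ) : 2 * ((m : ℚ) + 1) * (2 * m + 1) * c m k =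
    (((m : ℚ) + 1) ^ 2 - k ^ 2) * c (m + 1) k := by
  unfold c
  rcases Nat.lt_or_ge m k with h | h
  · rw [Nat.choose_eq_zero_of_lt (by omega : 2 * m < m + k)]
    rcases Nat.lt_or_ge (m + 1) k with h1 | h1
    · rw [Nat.choose_eq_zero_of_lt (by omega : 2 * (m + 1) < m + 1 + k)]
      simp
    · have : k = m + 1 := by omega
      subst this
      push_cast
      ring
  · obtain ⟨d, rfl⟩ : ∃ d, m = k + d := ⟨m - k, by omega⟩
    -- `C(2m+2, m+1+k) (m+1+k) (m+1-k) = (2m+2)(2m+1) C(2m, m+k)`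
    have h1 := Nat.add_one_mul_choose_eq (2 * (k + d) + 1) (k + d + k)
    have h2 := Nat.choose_succ_right_eq (2 * (k + d) + 1) (k + d + k)
    have h3 := Nat.choose_mul_succ_eq (2 * (k + d)) (k + d + k)
    have e1 : 2 * (k + d) + 1 + 1 = 2 * (k + d + 1) := by ring
    have e2 : k + d + k + 1 = k + d + 1 + k := by ring
    have e3 : 2 * (k + d) + 1 - (k + d + k) = d + 1 := by omega
    rw [e1, e2] at h1
    rw [e3] at h3
    have h1' : ((2 * (k + d) + 1 + 1 : ℕ) : ℚ) * ((2 * (k + d) + 1).choose (k + d + k) : ℚ) =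
        ((2 * (k + d + 1)).choose (k + d + 1 + k) : ℚ) * ((k + d + 1 + k : ℕ) : ℚ) := by
      rw [e1]
      exact_mod_cast h1
    have h3' : ((2 * (k + d)).choose (k + d + k) : ℚ) * ((2 * (k + d) + 1 : ℕ) : ℚ) =
        ((2 * (k + d) + 1).choose (k + d + k) : ℚ) * ((d + 1 : ℕ) : ℚ) := by
      exact_mod_cast h3
    push_cast at h1' h3' ⊢
    linear_combination (2 * ((k : ℚ) + d + 1)) * h3' + (d + 1) * h1'

/-- `∑_{k<K} k ^ 3 C(2n, n+k) ^ 2 C(2m, m+k)` -/
def Phi (K n m : ℕ) : ℚ := ∑ k ∈ range K, (k : ℚ) ^ 3 * c n k ^ 2 * c m k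

lemma recurrence (K n m : ℕ) (hK : n < K) :
    ((n : ℚ) + m + 1) ^ 2 * (n + 2 * m) * Phi K n (m + 1) =
      (n + 2 * m + 2) * (2 * (m + 1) * (2 * m + 1)) * Phi K n m +
      n ^ 3 * (m + 1) ^ 2 / 2 * (c n 0 ^ 2 * c (m + 1) 0) := by
  have key : ∀ k : ℕ, ∑ i ∈ range k, (((n : ℚ) + m + 1) ^ 2 * (n + 2 * m) *
      ((i : ℚ) ^ 3 * c n i ^ 2 * c (m + 1) i) -
      (n + 2 * m + 2) * (2 * (m + 1) * (2 * m + 1)) * ((i : ℚ) ^ 3 * c n i ^ 2 * c m i)) =
      n ^ 3 * (m + 1) ^ 2 / 2 * (c n 0 ^ 2 * c (m + 1) 0) -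
      ((n : ℚ) + k) ^ 2 * (m + 1 + k) * (((n : ℚ) + 2 * m + 2) * (k * (k - 1)) / 2 +
        n * (m + 1) / 2) * (c n k ^ 2 * c (m + 1) k) := by
    intro k
    induction k with
    | zero =>
      simp only [range_zero, sum_empty]
      push_cast
      ring
    | succ k ih =>
      rw [sum_range_succ, ih]
      have h1 := c_succ n k
      have h2 := c_succ (m + 1) k
      have h3 := c_up m k
      obtain ⟨u, hu⟩ : ∃ u, u = c n k := ⟨_, rfl⟩
      obtain ⟨u', hu'⟩ : ∃ u', u' = c n (k + 1) := ⟨_, rfl⟩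
      obtain ⟨v, hv⟩ : ∃ v, v = c (m + 1) k := ⟨_, rfl⟩
      obtain ⟨v', hv'⟩ : ∃ v', v' = c (m + 1) (k + 1) := ⟨_, rfl⟩
      obtain ⟨w, hw⟩ : ∃ w, w = c m k := ⟨_, rfl⟩
      rw [← hu, ← hu'] at h1
      rw [← hv, ← hv'] at h2
      rw [← hw, ← hv] at h3
      rw [← hu, ← hu', ← hv, ← hv', ← hw]
      push_cast at h1 h2 h3 ⊢
      have h4 : ((n : ℚ) + (k + 1)) ^ 2 * ((m : ℚ) + 1 + (k + 1)) * (u' ^ 2 * v') =
          ((n : ℚ) - k) ^ 2 * ((m : ℚ) + 1 - k) * (u ^ 2 * v) := by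
        have h5 : ((n : ℚ) + k + 1) * u' * (((n : ℚ) + k + 1) * u') =
          (((n : ℚ) - k) * u) * (((n : ℚ) - k) * u) := by rw [h1]
        linear_combination ((m : ℚ) + 1 + k + 1) * v' * h5 + (((n : ℚ) - k) * u) ^ 2 * h2
      linear_combination (-((n : ℚ) + 2 * m + 2)) * (k : ℚ) ^ 3 * u ^ 2 * h3 +
        ((((n : ℚ) + 2 * m + 2) * ((k + 1) * (k + 1 - 1)) / 2 + n * (m + 1) / 2)) * h4
  have h := key K
  have hz : c n K = 0 := by
    unfold c
    rw [Nat.choose_eq_zero_of_lt (by omega)]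
    simp
  rw [hz, sum_sub_distrib, ← mul_sum, ← mul_sum] at h
  unfold Phi
  linear_combination h

lemma c_zero_succ (m : ℕ) : ((m : ℚ) + 1) * c (m + 1) 0 = 2 * (2 * m + 1) * c m 0 := by
  have h := c_up m 0
  have h1 : (m : ℚ) + 1 ≠ 0 := by positivity
  apply mul_left_cancel₀ h1
  push_cast at h
  linear_combination -h

/-- `∑_{j<m} C(n+j, n) C(n+j, n-1)` -/
def Z1 (n m : ℕ) : ℚ := ∑ j ∈ range m, ((n + j).choose n : ℚ) * ((n + j).choose (n - 1) : ℚ)

/-- `∑_{j<J} C(m+j, m) C(n+j, n-1)` -/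
def Z2 (J n m : ℕ) : ℚ := ∑ j ∈ range J, ((m + j).choose m : ℚ) * ((n + j).choose (n - 1) : ℚ)

lemma choose_pred {n j : ℕ} (hn : 1 ≤ n) :
    ((j : ℚ) + 1) * ((n + j).choose (n - 1) : ℚ) = n * ((n + j).choose n : ℚ) := by
  obtain ⟨d, rfl⟩ : ∃ d, n = d + 1 := ⟨n - 1, by omega⟩
  have h := Nat.choose_succ_right_eq (d + 1 + j) d
  have e : d + 1 + j - d = j + 1 := by omega
  rw [e] at h
  have h' : (((d + 1 + j).choose (d + 1) * (d + 1) : ℕ) : ℚ) =
      (((d + 1 + j).choose d * (j + 1) : ℕ) : ℚ) := by exact_mod_cast h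
  push_cast at h'
  rw [Nat.add_sub_cancel]
  push_cast
  linear_combination -h'

lemma choose_up (n m : ℕ) : ((m : ℚ) + 1) * ((n + (m + 1)).choose n : ℚ) =
    (n + m + 1) * ((n + m).choose n : ℚ) := by
  have h := Nat.choose_mul_succ_eq (n + m) n
  have e : n + m + 1 - n = m + 1 := by omega
  rw [e] at h
  have h' : (((n + m).choose n * (n + m + 1) : ℕ) : ℚ) =
      (((n + m + 1).choose n * (m + 1) : ℕ) : ℚ) := by exact_mod_cast h
  push_cast at h'
  rw [← add_assoc]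
  linear_combination -h'

theorem closed1 {K n : ℕ} (hn : 1 ≤ n) (hK : n < K) (m : ℕ) :
    2 * Phi K n m * ((n + m).choose n : ℚ) ^ 2 =
      n ^ 2 * c n 0 ^ 2 * c m 0 * (m * ((n + m).choose n : ℚ) ^ 2 - (n + 2 * m) * Z1 n m) := by
  have hn0 : (0 : ℚ) < n := by exact_mod_cast hn
  induction m with
  | zero =>
    have h1 : Phi K n 0 = 0 := by
      unfold Phi
      refine sum_eq_zero fun k _ => ?_
      rcases Nat.eq_zero_or_pos k with h | h
      · subst h; simp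
      · unfold c
        rw [Nat.choose_eq_zero_of_lt (by omega : 2 * 0 < 0 + k)]
        simp
    rw [h1]
    simp [Z1]
  | succ m ih =>
    have hr := recurrence K n m hK
    have h2 := c_zero_succ m
    have h3 := choose_up n m
    have h4 := choose_pred (j := m) hn
    have hZ : Z1 n (m + 1) = Z1 n m + ((n + m).choose n : ℚ) * ((n + m).choose (n - 1) : ℚ) := by
      unfold Z1; rw [sum_range_succ]
    rw [hZ]
    obtain ⟨P, hP⟩ : ∃ P, P = ((n + m).choose n : ℚ) := ⟨_, rfl⟩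
    obtain ⟨P', hP'⟩ : ∃ P', P' = ((n + (m + 1)).choose n : ℚ) := ⟨_, rfl⟩
    obtain ⟨R, hR⟩ : ∃ R, R = ((n + m).choose (n - 1) : ℚ) := ⟨_, rfl⟩
    rw [← hP] at ih h4
    rw [← hP', ← hP] at h3
    rw [← hR] at h4
    rw [← hP, ← hP', ← hR]
    have hm : (0 : ℚ) < (m : ℚ) + 1 := by positivity
    have hF : ((m : ℚ) + 1) ^ 2 * (n + 2 * m) ≠ 0 := by positivity
    apply mul_left_cancel₀ hF
    push_cast
    linear_combination (2 * Phi K n (m + 1) * (n + 2 * m) * ((m + 1) * P' + (n + m + 1) * P) -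
      n ^ 2 * c n 0 ^ 2 * c (m + 1) 0 * (n + 2 * m) * (m + 1) *
        ((m + 1) * P' + (n + m + 1) * P)) * h3 + 2 * P ^ 2 * hr +
      (n + 2 * m + 2) * 2 * (m + 1) * (2 * m + 1) * ih -
      (n + 2 * m + 2) * (m + 1) * n ^ 2 * c n 0 ^ 2 * (m * P ^ 2 - (n + 2 * m) * Z1 n m) * h2 +
      n ^ 2 * c n 0 ^ 2 * c (m + 1) 0 * (n + 2 * m) * (n + 2 * m + 2) * (m + 1) * P * h4

lemma Z2_rec {n : ℕ} (hn : 1 ≤ n) (m : ℕ) :
    (m + 1) * (((n : ℚ) + m + 1) * Z2 n n (m + 1) - m * Z2 n n m) =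
      n ^ 2 * ((n + m).choose n : ℚ) * c n 0 := by
  have key : ∀ J : ℕ, (m + 1) * (((n : ℚ) + m + 1) * Z2 J n (m + 1) - m * Z2 J n m) =
      J * (J + 1) * ((m + J).choose m : ℚ) * ((n + J).choose (n - 1) : ℚ) := by
    intro J
    induction J with
    | zero => simp [Z2]
    | succ J ih =>
      have e1 : Z2 (J + 1) n (m + 1) = Z2 J n (m + 1) +
          ((m + 1 + J).choose (m + 1) : ℚ) * ((n + J).choose (n - 1) : ℚ) := by
        unfold Z2; rw [sum_range_succ]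
      have e2 : Z2 (J + 1) n m = Z2 J n m +
          ((m + J).choose m : ℚ) * ((n + J).choose (n - 1) : ℚ) := by
        unfold Z2; rw [sum_range_succ]
      rw [e1, e2]
      have h1 : ((m : ℚ) + 1) * ((m + 1 + J).choose (m + 1) : ℚ) =
          (m + 1 + J) * ((m + J).choose m : ℚ) := by
        have h := Nat.add_one_mul_choose_eq (m + J) m
        have h' : (((m + J + 1) * (m + J).choose m : ℕ) : ℚ) =
            (((m + J + 1).choose (m + 1) * (m + 1) : ℕ) : ℚ) := by exact_mod_cast h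
        push_cast at h'
        rw [show m + 1 + J = m + J + 1 by ring]
        linear_combination -h'
      have h2 := choose_up m J
      have h3 : ((J : ℚ) + 2) * ((n + (J + 1)).choose (n - 1) : ℚ) =
          (n + J + 1) * ((n + J).choose (n - 1) : ℚ) := by
        have h := Nat.choose_mul_succ_eq (n + J) (n - 1)
        have e : n + J + 1 - (n - 1) = J + 2 := by omega
        rw [e] at h
        have h' : (((n + J).choose (n - 1) * (n + J + 1) : ℕ) : ℚ) =
            (((n + J + 1).choose (n - 1) * (J + 2) : ℕ) : ℚ) := by exact_mod_cast h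
        push_cast at h'
        rw [← add_assoc]
        linear_combination -h'
      obtain ⟨a, ha⟩ : ∃ a, a = ((m + J).choose m : ℚ) := ⟨_, rfl⟩
      obtain ⟨a', ha'⟩ : ∃ a, a = ((m + (J + 1)).choose m : ℚ) := ⟨_, rfl⟩
      obtain ⟨b, hb⟩ : ∃ b, b = ((n + J).choose (n - 1) : ℚ) := ⟨_, rfl⟩
      obtain ⟨b', hb'⟩ : ∃ b, b = ((n + (J + 1)).choose (n - 1) : ℚ) := ⟨_, rfl⟩
      obtain ⟨d, hd⟩ : ∃ a, a = ((m + 1 + J).choose (m + 1) : ℚ) := ⟨_, rfl⟩
      rw [← ha, ← hd] at h1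
      rw [← ha, ← ha'] at h2
      rw [← hb, ← hb'] at h3
      rw [← ha, ← hb] at ih
      rw [← ha, ← ha', ← hb, ← hb', ← hd]
      push_cast
      linear_combination ih + (n + m + 1) * b * h1 - (J + 2) * b' * h2 - (m + J + 1) * a * h3
  rw [key n]
  have h := choose_pred (j := n) hn
  have e : c n 0 = ((n + n).choose n : ℚ) := by unfold c; rw [two_mul, add_zero]
  rw [e, show ((m + n).choose m : ℚ) = ((n + m).choose n : ℚ) by
    rw [add_comm m n, Nat.choose_symm_add]]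
  linear_combination n * ((n + m).choose n : ℚ) * h

theorem closed2 {K n : ℕ} (hn : 1 ≤ n) (hK : n < K) (m : ℕ) :
    2 * Phi K n m * ((n + m).choose n : ℚ) =
      m * n * c n 0 * c m 0 * (n * ((n + m).choose n : ℚ) * c n 0 - (n + 2 * m) * Z2 n n m) := by
  have hn0 : (0 : ℚ) < n := by exact_mod_cast hn
  induction m with
  | zero =>
    have h1 : Phi K n 0 = 0 := by
      unfold Phi
      refine sum_eq_zero fun k _ => ?_
      rcases Nat.eq_zero_or_pos k with h | h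
      · subst h; simp
      · unfold c
        rw [Nat.choose_eq_zero_of_lt (by omega : 2 * 0 < 0 + k)]
        simp
    rw [h1]
    simp
  | succ m ih =>
    have hr := recurrence K n m hK
    have h2 := c_zero_succ m
    have h3 := choose_up n m
    have h4 := Z2_rec hn m
    obtain ⟨P, hP⟩ : ∃ P, P = ((n + m).choose n : ℚ) := ⟨_, rfl⟩
    obtain ⟨P', hP'⟩ : ∃ P', P' = ((n + (m + 1)).choose n : ℚ) := ⟨_, rfl⟩
    rw [← hP] at ih h4
    rw [← hP', ← hP] at h3
    rw [← hP']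
    have hF : ((m : ℚ) + 1) ^ 2 * (n + m + 1) * (n + 2 * m) ≠ 0 := by positivity
    apply mul_left_cancel₀ hF
    push_cast
    linear_combination (2 * (m + 1) * (n + m + 1) * (n + 2 * m) * Phi K n (m + 1) -
      (m + 1) ^ 2 * n ^ 2 * c n 0 ^ 2 * c (m + 1) 0 * (n + 2 * m) * (n + m + 1)) * h3 +
      2 * (m + 1) * P * hr +
      (m + 1) * (n + 2 * m + 2) * 2 * (m + 1) * (2 * m + 1) * ih -
      (m + 1) ^ 2 * (n + 2 * m + 2) * m * n * c n 0 * (n * P * c n 0 - (n + 2 * m) * Z2 n n m) *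
        h2 +
      (m + 1) ^ 2 * n * c n 0 * c (m + 1) 0 * (n + 2 * m) * (n + 2 * m + 2) * h4

end Pool.Agent.H32x.MixedCubic
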